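import Pool.Agent.H4.Cl

set_option autoImplicit false

namespace Pool.Agent.Results.MP_dd6baa_lc.InForall

open Pool.Agent.H11.PT Pool.Agent.H21.ER Pool.Agent.H4.Cl

theorem result : ∃ f : ℕ × Qf → Qf, PolyTime bits bits f ∧
    ∀ n φ, IsClosed (sset n φ) ↔ ¬ETR (f (n, φ)) :=
  ⟨red, red_pt.polyTime, red_iff⟩

end Pool.Agent.Results.MP_dd6baa_lc.InForall
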